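import Pool.Agent.R767.SG9

/-!
# Automorphisms of the higher-dimensional sphere graph

For every `d ≥ 2` the automorphism group of the intersection graph `𝓒^d` of the flat discs
`𝔻^d ∩ H` (`H` a hyperplane of `ℝ^(d+1)` meeting the open unit ball) is not isomorphic to the group
of homeomorphisms of the sphere `𝕊^d`. Even more, the homeomorphism group does not embed into the
automorphism group of the graph.
-/

namespace Pool.Agent.Results.MP_d78ec8_co.AutSphereGraph

open Metric

/-- The family `𝓗_d`: the sets `𝔻^d ∩ H`, where `𝔻^d` is the closed unit ball of `ℝ^(d+1)` and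
`H = {x | ⟪u, x⟫ = h}`, `‖u‖ = 1`, is an affine hyperplane at distance `|h| < 1` from the origin. -/
def FlatDisc (d : ℕ) : Type :=
  {A : Set (EuclideanSpace ℝ (Fin (d + 1))) // ∃ (u : EuclideanSpace ℝ (Fin (d + 1))) (h : ℝ),
    ‖u‖ = 1 ∧ |h| < 1 ∧ A = {x | ‖x‖ ≤ 1 ∧ inner ℝ u x = h}}

/-- The `d`-sphere graph `𝓒^d`: the intersection graph of `𝓗_d`. -/
def sphereGraph (d : ℕ) : SimpleGraph (FlatDisc d) where
  Adj A B := A ≠ B ∧ (A.1 ∩ B.1).Nonempty
  symm := ⟨fun A B h => ⟨h.1.symm, by rw [Set.inter_comm]; exact h.2⟩⟩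
  loopless := ⟨fun A h => h.1 rfl⟩

/-- `Aut(𝕊^d)`: the group of homeomorphisms of the unit sphere of `ℝ^(d+1)`. -/
abbrev HomeoSphere (d : ℕ) : Type :=
  sphere (0 : EuclideanSpace ℝ (Fin (d + 1))) 1 ≃ₜ sphere (0 : EuclideanSpace ℝ (Fin (d + 1))) 1

/-- `Aut(𝓒^d)`: the group of automorphisms of the sphere graph. -/
abbrev AutGraph (d : ℕ) : Type := sphereGraph d ≃g sphereGraph d

/-- For every `d ≥ 2`, the groups `Aut(𝕊^d)` and `Aut(𝓒^d)` are not isomorphic; moreover there is
no injective group homomorphism `Aut(𝕊^d) → Aut(𝓒^d)`. -/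
theorem result (d : ℕ) (hd : 2 ≤ d) :
    (∀ φ : HomeoSphere d →* AutGraph d, ¬ Function.Injective φ) ∧
      IsEmpty (HomeoSphere d ≃* AutGraph d) := by
  have main : ∀ φ : HomeoSphere d →* AutGraph d, ¬ Function.Injective φ := by
    obtain ⟨k, rfl⟩ : ∃ k, d = k + 1 := ⟨d - 1, by omega⟩
    intro φ hφ
    have hn : 3 ≤ Module.finrank ℝ (EuclideanSpace ℝ (Fin (k + 1 + 1))) := by
      rw [finrank_euclideanSpace_fin]; omega
    -- automorphisms preserve the intersection relation
    have hself : ∀ A : FlatDisc (k + 1), (A.1 ∩ A.1).Nonempty := by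
      intro A
      obtain ⟨v, hvv, hA⟩ := R767.SG.exists_rep
        (E := EuclideanSpace ℝ (Fin (k + 1 + 1))) A
      rw [hA]
      apply R767.SG.meet_of (by rw [hvv]; norm_num) (by rw [hvv]; norm_num)
      rw [hvv]; norm_num
    have hMt : ∀ (f : AutGraph (k + 1)) (A B : FlatDisc (k + 1)),
        R767.SG.Mt (E := EuclideanSpace ℝ (Fin (k + 1 + 1))) (f A) (f B) ↔
        R767.SG.Mt (E := EuclideanSpace ℝ (Fin (k + 1 + 1))) A B := by
      intro f A B
      by_cases hAB : A = B
      · subst hAB
        exact ⟨fun _ => hself A, fun _ => hself (f A)⟩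
      · have h1 : (sphereGraph (k + 1)).Adj (f A) (f B) ↔ (sphereGraph (k + 1)).Adj A B :=
          f.map_rel_iff'
        have h2 : f A ≠ f B := fun h => hAB (f.injective h)
        constructor
        · intro h
          exact (h1.mp ⟨h2, h⟩).2
        · intro h
          exact (h1.mpr ⟨hAB, h⟩).2
    -- the sequences
    let a : ℕ → HomeoSphere (k + 1) := fun i =>
      R767.SG.Lam k (R767.SG.push (i : ℝ) (1 / 2) (by norm_num))
    let b : ℕ → HomeoSphere (k + 1) := fun i =>
      R767.SG.Lam k (R767.SG.push (i : ℝ) (1 / 4) (by norm_num))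
    have hdist : ∀ i j : ℕ, i ≠ j → (1 : ℝ) ≤ |(i : ℝ) - (j : ℝ)| := by
      intro i j hij
      have h1 : (1 : ℤ) ≤ |(i : ℤ) - (j : ℤ)| := by
        apply Int.one_le_abs
        omega
      exact_mod_cast h1
    have caa : ∀ i j : ℕ, i ≠ j → a i * a j = a j * a i := by
      intro i j hij
      apply R767.SG.Lam_comm
      intro x
      apply R767.SG.push_comm
      have := hdist i j hij
      linarith
    have cab : ∀ i j : ℕ, i ≠ j → a i * b j = b j * a i := by
      intro i j hij
      apply R767.SG.Lam_comm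
      intro x
      apply R767.SG.push_comm
      have := hdist i j hij
      linarith
    have cne : ∀ i : ℕ, a i * b i ≠ b i * a i := by
      intro i
      exact R767.SG.Lam_ne k _ _ _ (R767.SG.push_ne (i : ℝ))
    refine R767.SG.no_chain (E := EuclideanSpace ℝ (Fin (k + 1 + 1))) hn
      (fun i => (φ (a i)).toEquiv) (fun i => (φ (b i)).toEquiv)
      (fun i => hMt (φ (a i))) (fun i => hMt (φ (b i))) ?_ ?_ ?_
    · intro i j hij C
      have h1 : φ (a i) * φ (a j) = φ (a j) * φ (a i) := by
        rw [← map_mul, ← map_mul, caa i j hij]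
      exact congrArg (fun f : AutGraph (k + 1) => f C) h1
    · intro i j hij C
      have h1 : φ (a i) * φ (b j) = φ (b j) * φ (a i) := by
        rw [← map_mul, ← map_mul, cab i j hij]
      exact congrArg (fun f : AutGraph (k + 1) => f C) h1
    · intro i
      by_contra hcon
      push Not at hcon
      apply cne i
      apply hφ
      rw [map_mul, map_mul]
      apply RelIso.ext
      intro C
      exact hcon C
  refine ⟨main, ⟨fun e => main e.toMonoidHom e.injective⟩⟩

end Pool.Agent.Results.MP_d78ec8_co.AutSphereGraph
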